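import Pool.Agent.PCO.StmtsA

/-!
Row ZNE of the squad PCO (helper28): the zoom where the second box is near but not very near.
-/

set_option autoImplicit false

open Matrix Filter Topology

namespace Pool.Agent.PCO.H28

open Pool.Agent.PFS Pool.Agent.PFJ Pool.Agent.PCO

theorem zne (hwbf : WbfStmt) (hbf1 : Bf1Stmt) (hbf2 : Bf2Stmt) (hbxl : BxlStmt) : ZneStmt := by
  intro n C Γ d h U v Um vm f τ hB hUd hBm hUmd hf hτ hn1 hn2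
  have hcc : CC C Γ := h.toCC
  obtain ⟨w1, w2, w3, -, w5⟩ := hwbf n
  obtain ⟨hvL, hvcl, hv0, -, -, hmem, -, hlam, -⟩ := hbf1 n C Γ hcc h.maxc U v hB
  have hul := hcc.hul
  obtain ⟨ns1, -, -, -, ns5⟩ := Pool.Agent.PFJ.H39.nsf n C Γ hcc
  obtain ⟨ls1, -, -, -, -⟩ := Pool.Agent.PFJ.H10.lsf n
  -- the points
  have hpC : ∀ m, f m + τ m • v ∈ C := fun m =>
    (hmem (f m) (hf m).1 (τ m)).mpr ⟨hf m, hτ m⟩
  have hfne : ∀ m, f m ≠ 0 := by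
    intro m h0
    have h1 := hpC m
    rw [h0, zero_add] at h1
    exact hul.lamNot _ (hul.lamSmul v hvL (τ m) (hτ m)) h1
  have hfL : ∀ m, f m ∈ LamC C Γ := fun m => (hlam (f m) (hf m).1 (hf m).2.1 (hfne m)).1
  have hpH : ∀ m, f m + τ m • v ∈ Hull C Γ := fun m =>
    hul.add _ (hul.lamHull _ (hfL m)) _ (hul.lamHull _ (hul.lamSmul v hvL (τ m) (hτ m)))
  choose q hqmem hqlo hqup using hn1
  have hqC : ∀ m, q m ∈ C := fun m => hcc.mem_of_le (hpC m) (hqlo m)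
  choose y hyU ρ hqe using fun m => (w1 (Um m) (vm m) (q m)).mp (hqmem m)
  have hyu : ∀ m, Unt C (Um m) (y m) ∧ 0 < ρ m := by
    intro m
    obtain ⟨-, -, -, -, -, hmem', -, -, -⟩ := hbf1 n C Γ hcc h.maxc (Um m) (vm m) (hBm m)
    refine (hmem' (y m) (hyU m) (ρ m)).mp ?_
    rw [← hqe m]
    exact hqC m
  -- zoom
  obtain ⟨φ1, g, s, p, hφ1, hg, hs, hp, hlim⟩ :=
    Pool.Agent.PFS.H60.zom n C Γ hcc (fun m => f m + τ m • v) hpC hpH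
  have hlow : ∀ m, s m • act (g m) (q (φ1 m)) - s m • act (g m) (f (φ1 m) + τ (φ1 m) • v)
      ∈ closure C := by
    intro m
    rw [← smul_sub, ← CC.act_sub]
    exact (hcc.sact_cl_iff (hg m) (hs m)).mpr (hqlo (φ1 m))
  have hupp : ∀ m, (4 : ℝ) • (s m • act (g m) (f (φ1 m) + τ (φ1 m) • v)) -
      s m • act (g m) (q (φ1 m)) ∈ closure C := by
    intro m
    rw [smul_comm, ← smul_sub, ← CC.act_smul, ← CC.act_sub]
    exact (hcc.sact_cl_iff (hg m) (hs m)).mpr (hqup (φ1 m))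
  obtain ⟨B, hBpos, hnorm⟩ := hcc.normal
  obtain ⟨R, hR⟩ : ∃ R : ℝ, ∀ m, ‖s m • act (g m) (f (φ1 m) + τ (φ1 m) • v)‖ ≤ R := by
    obtain ⟨R, hR⟩ := hlim.norm.bddAbove_range
    exact ⟨R, fun m => hR ⟨m, rfl⟩⟩
  have hbound : ∀ m, s m • act (g m) (q (φ1 m))
      ∈ Metric.closedBall (0 : V n) (B * (4 * R)) := by
    intro m
    rw [Metric.mem_closedBall, dist_zero_right]
    have hcl : s m • act (g m) (q (φ1 m)) ∈ closure C := by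
      refine hcc.cl_of_le (x := s m • act (g m) (f (φ1 m) + τ (φ1 m) • v)) ?_ (hlow m)
      exact (hcc.sact_cl_iff (hg _) (hs _)).mpr (subset_closure (hpC _))
    refine (hnorm _ _ hcl (hupp m)).trans ?_
    rw [norm_smul, Real.norm_eq_abs, abs_of_pos (by norm_num : (0 : ℝ) < 4)]
    exact mul_le_mul_of_nonneg_left (mul_le_mul_of_nonneg_left (hR m) (by norm_num)) hBpos.le
  obtain ⟨Q, -, φ2, hφ2, hQ⟩ := (isCompact_closedBall (0 : V n) (B * (4 * R))).tendsto_subseq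
    hbound
  have hP2 : Tendsto (fun m => s (φ2 m) • act (g (φ2 m)) (f (φ1 (φ2 m)) + τ (φ1 (φ2 m)) • v))
      atTop (𝓝 p) := hlim.comp hφ2.tendsto_atTop
  have hQC : Q ∈ C := by
    refine hcc.mem_of_le hp ?_
    refine isClosed_closure.mem_of_tendsto (hQ.sub hP2) (Eventually.of_forall fun m => ?_)
    exact hlow (φ2 m)
  -- boxes and group elements
  have bact : ∀ (U' : Submodule ℝ (V n)) (v' : V n), Bx C Γ U' v' → ∀ c : ℝ, 0 < c →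
      ∀ γ ∈ Γ, ∀ t : ℝ, 0 < t → Bx C Γ (img γ U') (t • act γ (c • v')) := by
    intro U' v' hB' c hc γ hγ t ht
    obtain ⟨-, -, -, -, b5, -, -⟩ := hbf2 n C Γ hcc h.maxc U' v' hB'
    obtain ⟨-, -, -, -, -, b6, -⟩ := hbf2 n C Γ hcc h.maxc U' (c • v') (b5 c hc)
    exact (b6 γ hγ t ht).1
  -- the first boxes
  obtain ⟨φ3, U1, v1, f1, hφ3, hB1, hf1, hsum1, hlf1, hlv1, hLS1, -, hfin1⟩ :=
    hbxl n C Γ hcc h.maxc (fun m => img (g (φ2 m)) U)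
      (fun m => s (φ2 m) • act (g (φ2 m)) (τ (φ1 (φ2 m)) • v))
      (fun m => s (φ2 m) • act (g (φ2 m)) (f (φ1 (φ2 m)))) p
      (fun m => bact U v hB _ (hτ _) _ (hg _) _ (hs _))
      (fun m => (img (g (φ2 m)) U).smul_mem _ (mem_img.mpr ⟨_, (hf _).1, rfl⟩)) hp (by
        refine hP2.congr fun m => ?_
        rw [CC.act_add, smul_add])
  -- the second boxes
  obtain ⟨φ4, U2, v2, f2, hφ4, hB2, -, -, -, hlv2, hLS2, hLW2, hfin2⟩ :=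
    hbxl n C Γ hcc h.maxc (fun m => img (g (φ2 (φ3 m))) (Um (φ1 (φ2 (φ3 m)))))
      (fun m => s (φ2 (φ3 m)) • act (g (φ2 (φ3 m)))
        (ρ (φ1 (φ2 (φ3 m))) • vm (φ1 (φ2 (φ3 m)))))
      (fun m => s (φ2 (φ3 m)) • act (g (φ2 (φ3 m))) (y (φ1 (φ2 (φ3 m))))) Q
      (fun m => bact _ _ (hBm _) _ (hyu _).2 _ (hg _) _ (hs _))
      (fun m => (img (g (φ2 (φ3 m))) (Um (φ1 (φ2 (φ3 m))))).smul_mem _
        (mem_img.mpr ⟨_, hyU _, rfl⟩)) hQC (by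
        refine (hQ.comp hφ3.tendsto_atTop).congr fun m => ?_
        show s (φ2 (φ3 m)) • act (g (φ2 (φ3 m))) (q (φ1 (φ2 (φ3 m)))) = _
        rw [hqe (φ1 (φ2 (φ3 m))), CC.act_add, smul_add])
  have hfinU1 : Module.finrank ℝ U1 = d := by
    have h1 : Module.finrank ℝ (img (g (φ2 (φ3 0))) U) = Module.finrank ℝ U1 := hfin1 0
    rw [← h1, w5, hUd]
  have hfinU2 : Module.finrank ℝ U2 = d := by
    have h1 : Module.finrank ℝ (img (g (φ2 (φ3 (φ4 0)))) (Um (φ1 (φ2 (φ3 (φ4 0)))))) =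
      Module.finrank ℝ U2 := hfin2 0
    rw [← h1, w5, hUmd]
  refine ⟨fun m => φ1 (φ2 (φ3 (φ4 m))), fun m => g (φ2 (φ3 (φ4 m))), fun m => s (φ2 (φ3 (φ4 m))),
    fun m => ρ (φ1 (φ2 (φ3 (φ4 m)))), U1, U2, f1, v1, v2,
    hφ1.comp (hφ2.comp (hφ3.comp hφ4)), fun m => hg _, fun m => hs _, fun m => (hyu _).2,
    hB1, hfinU1, hB2, hfinU2, hf1, hlf1.comp hφ4.tendsto_atTop, hlv1.comp hφ4.tendsto_atTop,
    hlv2, ls1 _ _ φ4 hLS1 hφ4, hLS2, ?_⟩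
  intro heq
  have hpW : p ∈ Wb U2 v2 := by
    rw [← heq, ← hsum1]
    exact (w1 U1 v1 _).mpr ⟨f1, hf1.1, 1, by rw [one_smul]⟩
  have hP4 : Tendsto (fun m => s (φ2 (φ3 (φ4 m))) • act (g (φ2 (φ3 (φ4 m))))
      (f (φ1 (φ2 (φ3 (φ4 m)))) + τ (φ1 (φ2 (φ3 (φ4 m)))) • v)) atTop (𝓝 p) :=
    (hP2.comp hφ3.tendsto_atTop).comp hφ4.tendsto_atTop
  have hev := ns5 2 _ (Wb U2 v2) _ p hLW2 hp hpW hP4 (by norm_num)
  obtain ⟨m, hm⟩ := hev.exists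
  have hW : Wb (img (g (φ2 (φ3 (φ4 m)))) (Um (φ1 (φ2 (φ3 (φ4 m))))))
      (s (φ2 (φ3 (φ4 m))) • act (g (φ2 (φ3 (φ4 m))))
        (ρ (φ1 (φ2 (φ3 (φ4 m)))) • vm (φ1 (φ2 (φ3 (φ4 m)))))) =
      img (g (φ2 (φ3 (φ4 m)))) (Wb (Um (φ1 (φ2 (φ3 (φ4 m))))) (vm (φ1 (φ2 (φ3 (φ4 m)))))) := by
    rw [CC.act_smul, smul_smul, w3 _ _ _ (mul_pos (hs _) (hyu _).2).ne', w2]
  have hm' : NearS C 2 (img (g (φ2 (φ3 (φ4 m))))
      (Wb (Um (φ1 (φ2 (φ3 (φ4 m))))) (vm (φ1 (φ2 (φ3 (φ4 m)))))))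
      (s (φ2 (φ3 (φ4 m))) • act (g (φ2 (φ3 (φ4 m))))
        (f (φ1 (φ2 (φ3 (φ4 m)))) + τ (φ1 (φ2 (φ3 (φ4 m)))) • v)) := by
    rw [← hW]
    exact hm
  exact hn2 _ ((ns1 2 _ _ _ (hg _) _ (hs _)).mp hm')

end Pool.Agent.PCO.H28
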